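import Pool.Agent.N290.RL.Stm
import Pool.Agent.N914.RK.XS

set_option autoImplicit false

/-!
# Project RL of helper290, part YS: the phase

The proof follows `Pool/Agent/N914/RK/XS.lean` (helper914).
-/

open Complex MeasureTheory Set Filter Topology

namespace Pool.Agent.N7.RL

open Pool.Agent.N290.RJ Pool.Agent.N290.RK Pool.Agent.N914.RK Pool.Agent.N290.RL

variable {d : ℕ}

lemma numY {C₁ a L w w' s l l' m e e' dp x D : ℝ} (hC : 0 < C₁) (ha : 0 ≤ a)
    (hL : 0 ≤ L) (hw : 0 < w) (hw1 : w ≤ 1) (hw' : 0 < w') (hs0 : 0 ≤ s) (hs1 : s ≤ 1)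
    (hww : w' ≤ 2 * w) (hws : w ^ 4 * (1 + s / 32) ≤ w' ^ 4)
    (hl : 0 < l) (hl' : 0 < l') (hll : l' ≤ (1 + s / 64) * l)
    (hdp : l' * dp ≤ C₁ * (a / w) * s) (hx0 : 0 ≤ x)
    (hx : x ≤ 3 / 2 * a * w' ^ 7 * L) (hm0 : 0 ≤ m) (hm : l * m ≤ C₁ * a * w ^ 7 * L)
    (hD0 : 0 ≤ D) (hD : D ≤ 2 * (a / w) * s) (he0 : 0 ≤ e)
    (he : l * e ≤ 12800 * C₁ * a ^ 2 * w ^ 4 * L) (he' : e' ≤ e + dp * x + D * (m + m)) :
    l' * e' ≤ 12800 * C₁ * a ^ 2 * w' ^ 4 * L := by
  have hl2 : l' ≤ 2 * l := hll.trans (mul_le_mul_of_nonneg_right (by linarith) hl.le)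
  have hT1 : l' * e ≤ 12800 * (C₁ * a ^ 2 * L) * (w ^ 4 * (1 + s / 64)) := by
    calc l' * e ≤ ((1 + s / 64) * l) * e := mul_le_mul_of_nonneg_right hll he0
      _ = (1 + s / 64) * (l * e) := by ring
      _ ≤ (1 + s / 64) * (12800 * C₁ * a ^ 2 * w ^ 4 * L) :=
        mul_le_mul_of_nonneg_left he (by linarith)
      _ = _ := by ring
  have h7 : w' ^ 7 ≤ 128 * w ^ 7 := by
    calc w' ^ 7 ≤ (2 * w) ^ 7 := pow_le_pow_left₀ hw'.le hww 7
      _ = _ := by ring
  have h64 : w ^ 6 ≤ w ^ 4 := pow_le_pow_of_le_one hw.le hw1 (by norm_num)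
  have hx' : x ≤ 192 * (a * w ^ 7 * L) := by
    calc x ≤ 3 / 2 * a * w' ^ 7 * L := hx
      _ = (3 / 2 * a * L) * w' ^ 7 := by ring
      _ ≤ (3 / 2 * a * L) * (128 * w ^ 7) := mul_le_mul_of_nonneg_left h7 (by positivity)
      _ = _ := by ring
  have hT2 : (l' * dp) * x ≤ 192 * (C₁ * a ^ 2 * L) * (s * w ^ 4) := by
    calc (l' * dp) * x ≤ (C₁ * (a / w) * s) * (192 * (a * w ^ 7 * L)) :=
        mul_le_mul hdp hx' hx0 (by positivity)
      _ = 192 * (C₁ * a ^ 2 * L) * (s * w ^ 6) := by field_simp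
      _ ≤ _ := by
        apply mul_le_mul_of_nonneg_left _ (by positivity)
        exact mul_le_mul_of_nonneg_left h64 hs0
  have hT3 : l' * (D * (m + m)) ≤ 8 * (C₁ * a ^ 2 * L) * (s * w ^ 4) := by
    calc l' * (D * (m + m)) ≤ 2 * l * (D * (m + m)) :=
        mul_le_mul_of_nonneg_right hl2 (by positivity)
      _ = 4 * (D * (l * m)) := by ring
      _ ≤ 4 * ((2 * (a / w) * s) * (C₁ * a * w ^ 7 * L)) := by
        apply mul_le_mul_of_nonneg_left _ (by norm_num)
        exact mul_le_mul hD hm (by positivity) (by positivity)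
      _ = 8 * (C₁ * a ^ 2 * L) * (s * w ^ 6) := by field_simp; ring
      _ ≤ _ := by
        apply mul_le_mul_of_nonneg_left _ (by positivity)
        exact mul_le_mul_of_nonneg_left h64 hs0
  have hE : l' * e' ≤ l' * e + (l' * dp) * x + l' * (D * (m + m)) := by
    calc l' * e' ≤ l' * (e + dp * x + D * (m + m)) := mul_le_mul_of_nonneg_left he' hl'.le
      _ = _ := by ring
  have hW : 0 ≤ C₁ * a ^ 2 * L := by positivity
  have h5 := mul_le_mul_of_nonneg_left hws hW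
  have h6 : 12800 * C₁ * a ^ 2 * w' ^ 4 * L = 12800 * ((C₁ * a ^ 2 * L) * w' ^ 4) := by ring
  rw [h6]
  generalize C₁ * a ^ 2 * L = W at *
  have h7' : W * (w ^ 4 * (1 + s / 32)) = W * w ^ 4 + 1 / 32 * (W * (s * w ^ 4)) := by ring
  have h8 : 12800 * W * (w ^ 4 * (1 + s / 64)) =
      12800 * (W * w ^ 4) + 200 * (W * (s * w ^ 4)) := by ring
  have h9 : 192 * W * (s * w ^ 4) = 192 * (W * (s * w ^ 4)) := by ring
  have h10 : 8 * W * (s * w ^ 4) = 8 * (W * (s * w ^ 4)) := by ring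
  rw [h8] at hT1
  rw [h9] at hT2
  rw [h10] at hT3
  rw [h7'] at h5
  linarith

theorem YS_of (d : ℕ) (hN : YN d) (hF : YF d) (hP : YP d) : YS d := by
  intro A L
  obtain ⟨C₁, hC₁, hP⟩ := hP A L
  refine ⟨12800 * C₁, by positivity, ?_⟩
  intro ε₂ φ χ a f hD
  have hfc := cd_hol hD.f1
  have hfj : ∀ j : ℕ, ContDiffOn ℝ 1 (fun w => f (rad j • w)) (B d) := fun j =>
    cd_dil hfc (rad_nonneg j) (rad_lt_one j).le
  have hdiff : ∀ {G : Type} [NormedAddCommGroup G] [NormedSpace ℝ G] {γ : E d → G},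
      ContDiffOn ℝ 1 γ (B d) → ∀ z ∈ B d, DifferentiableAt ℝ γ z := by
    intro G _ _ γ hγ z hz
    exact (hγ.differentiableOn (by norm_num)).differentiableAt (B_open.mem_nhds hz)
  intro j
  induction j with
  | zero =>
    refine ⟨contDiffOn_const, fun z hz ξ => ?_⟩
    have h4 : rad 0 = 0 := by simp [rad]
    have h5 : Pool.Agent.N290.RL.xj f 0 z ξ = 0 := by
      unfold Pool.Agent.N290.RL.xj
      rw [h4, zero_smul ℝ ξ, map_zero]
    have h6 : db (fun w => (Pool.Agent.N290.RL.Sj φ A a f 0 w : ℂ)) z ξ = 0 := by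
      simp only [Pool.Agent.N290.RL.Sj]
      exact db_hol (differentiableAt_const _) ξ
    rw [h5, h6]
    simp only [mul_zero, map_zero, sub_zero, norm_zero]
    have := len_nonneg z ξ
    have hw := (hN z hz 0).2.2.1
    positivity
  | succ j ih =>
    obtain ⟨ih1, ih2⟩ := ih
    obtain ⟨p1, -, p3⟩ := hP ε₂ φ χ a f hD j
    obtain ⟨q1, q2, q3⟩ := hP ε₂ φ χ a f hD (j + 1)
    refine ⟨?_, fun z hz ξ => ?_⟩
    · have h1 : ContDiffOn ℝ 1 (fun w => Pool.Agent.N290.RL.pj φ A a f j w *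
          (f (rad (j + 1) • w) - f (rad j • w))) (B d) := p1.mul ((hfj (j + 1)).sub (hfj j))
      have h2 : ContDiffOn ℝ 1 (fun w => (Pool.Agent.N290.RL.pj φ A a f j w *
          (f (rad (j + 1) • w) - f (rad j • w))).im) (B d) :=
        Complex.imCLM.contDiff.comp_contDiffOn h1
      exact ih1.add (contDiffOn_const.mul h2)
    · obtain ⟨r1, r2, r3, -, rdp, r4⟩ := p3 z hz
      obtain ⟨t1, t2, t3, -, -, t4⟩ := q3 z hz
      obtain ⟨f1, f2, f3, f9⟩ := hF a f hD.aw hD.f1 hD.f3 j z hz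
      obtain ⟨g1, g2, g3, g9⟩ := hF a f hD.aw hD.f1 hD.f3 (j + 1) z hz
      obtain ⟨s1, s2, w1, w2, w3, w4, w5, w6⟩ := hN z hz j
      obtain ⟨-, -, v1, -, -, -, -, -⟩ := hN z hz (j + 1)
      obtain ⟨-, -, b3, b4⟩ := f9 ξ
      obtain ⟨a1, -, a3, a4⟩ := g9 ξ
      have hLn := len_nonneg z ξ
      have ha : 0 ≤ a z := (hD.aw.a2 z hz).1.le
      have hpz := hdiff p1 z hz
      have hst := step (hdiff ih1 z hz) hpz (hdiff (hfj j) z hz) (hdiff (hfj (j + 1)) z hz)
        b3 a3 b4 a4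
      have hE : (fun w => (Pool.Agent.N290.RL.Sj φ A a f (j + 1) w : ℂ)) =
          fun w => ((Pool.Agent.N290.RL.Sj φ A a f j w +
          2 * (Pool.Agent.N290.RL.pj φ A a f j w *
            (f (rad (j + 1) • w) - f (rad j • w))).im : ℝ) : ℂ) := rfl
      rw [hE, hst]
      -- the derivative of `p`
      set m : ℝ := max ‖fderiv ℝ (Pool.Agent.N290.RL.pj φ A a f j) z ξ‖
        ‖fderiv ℝ (Pool.Agent.N290.RL.pj φ A a f j) z (I • ξ)‖ with hm
      have hm0 : 0 ≤ m := (norm_nonneg _).trans (le_max_left _ _)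
      have hml : Pool.Agent.N290.RL.lj φ A a f j z * m ≤ C₁ * a z * ww z j ^ 7 * len z ξ := by
        rcases max_choice ‖fderiv ℝ (Pool.Agent.N290.RL.pj φ A a f j) z ξ‖
          ‖fderiv ℝ (Pool.Agent.N290.RL.pj φ A a f j) z (I • ξ)‖ with h' | h'
        · rw [hm, h']; exact (r4 ξ).1
        · rw [hm, h']
          have := (r4 (I • ξ)).1
          rwa [len_I] at this
      have hd1 : ‖db (Pool.Agent.N290.RL.pj φ A a f j) z ξ‖ ≤ m :=
        db_norm (le_max_left _ _) (le_max_right _ _)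
      have hd2 : ‖db (fun w => starRingEnd ℂ (Pool.Agent.N290.RL.pj φ A a f j w)) z ξ‖ ≤ m :=
        db_conj_norm hpz (le_max_left _ _) (le_max_right _ _)
      refine numY (e := ‖db (fun w => (Pool.Agent.N290.RL.Sj φ A a f j w : ℂ)) z ξ -
        I * starRingEnd ℂ (Pool.Agent.N290.RL.pj φ A a f j z *
          Pool.Agent.N290.RL.xj f j z ξ)‖)
        (dp := ‖Pool.Agent.N290.RL.pj φ A a f (j + 1) z - Pool.Agent.N290.RL.pj φ A a f j z‖)
        (x := ‖Pool.Agent.N290.RL.xj f (j + 1) z ξ‖) (m := m)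
        (D := ‖f (rad (j + 1) • z) - f (rad j • z)‖)
        hC₁ ha hLn w1 w2 v1 s1 s2 w4 (w5 4 (by norm_num)) r1 t1 r3 rdp (norm_nonneg _) a1 hm0 hml
        (norm_nonneg _) f2 (norm_nonneg _) ?_ ?_
      · exact ih2 z hz ξ
      · have e : db (fun w => (Pool.Agent.N290.RL.Sj φ A a f j w : ℂ)) z ξ +
            (-I * ((f (rad (j + 1) • z) - f (rad j • z)) *
              db (Pool.Agent.N290.RL.pj φ A a f j) z ξ) +
              I * (starRingEnd ℂ (Pool.Agent.N290.RL.pj φ A a f j z) *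
                (starRingEnd ℂ (Pool.Agent.N290.RL.xj f (j + 1) z ξ) -
                  starRingEnd ℂ (Pool.Agent.N290.RL.xj f j z ξ)) +
                (starRingEnd ℂ (f (rad (j + 1) • z)) - starRingEnd ℂ (f (rad j • z))) *
                  db (fun w => starRingEnd ℂ (Pool.Agent.N290.RL.pj φ A a f j w)) z ξ)) -
            I * starRingEnd ℂ (Pool.Agent.N290.RL.pj φ A a f (j + 1) z *
              Pool.Agent.N290.RL.xj f (j + 1) z ξ) =
          (db (fun w => (Pool.Agent.N290.RL.Sj φ A a f j w : ℂ)) z ξ -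
            I * starRingEnd ℂ (Pool.Agent.N290.RL.pj φ A a f j z *
              Pool.Agent.N290.RL.xj f j z ξ)) +
          (-(I * (starRingEnd ℂ (Pool.Agent.N290.RL.pj φ A a f (j + 1) z -
            Pool.Agent.N290.RL.pj φ A a f j z) *
            starRingEnd ℂ (Pool.Agent.N290.RL.xj f (j + 1) z ξ)))) +
          (-I * ((f (rad (j + 1) • z) - f (rad j • z)) *
            db (Pool.Agent.N290.RL.pj φ A a f j) z ξ) +
            I * (starRingEnd ℂ (f (rad (j + 1) • z) - f (rad j • z)) *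
              db (fun w => starRingEnd ℂ (Pool.Agent.N290.RL.pj φ A a f j w)) z ξ)) := by
          simp only [map_mul, map_sub]
          ring
        rw [e]
        refine (norm_add₃_le).trans ?_
        gcongr
        · rw [norm_neg, norm_mul, norm_mul, Complex.norm_I, one_mul, RCLike.norm_conj,
            RCLike.norm_conj]
        · refine (norm_add_le _ _).trans ?_
          rw [norm_mul, norm_mul, norm_mul, norm_mul, norm_neg, Complex.norm_I, one_mul, one_mul,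
            RCLike.norm_conj, mul_add]
          gcongr

end Pool.Agent.N7.RL
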